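import Pool.Agent.Helper46.T5.Stmts

set_option autoImplicit false

/-!
MP_2f9829_co: module PRD, the product over the eigenvalues of the Hessian.
-/

open Finset MeasureTheory Filter Topology

namespace Pool.Agent.Helper49.T5

open Pool.Agent.Helper15.T4 Pool.Agent.Helper46.T5

/-- One factor `c` at the position `p`. -/
def sg {K : ℕ} (q : Fin K × Fin 9) : Fin K → Fin 9 := Function.update 0 q.1 q.2

/-- Index pairs of the nonzero single factors. -/
def I1 (K : ℕ) : Finset (Fin K × Fin 9) := univ ×ˢ (univ.erase 0)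

/-- The indices with at least two nontrivial factors. -/
def S2 (K : ℕ) : Finset (Fin K → Fin 9) := univ \ ({0} ∪ (I1 K).image sg)

theorem sg_self {K : ℕ} (q : Fin K × Fin 9) : sg q q.1 = q.2 := by simp [sg]

theorem sg_ne {K : ℕ} (q : Fin K × Fin 9) {p : Fin K} (h : p ≠ q.1) : sg q p = 0 := by
  simp [sg, Function.update_of_ne h]

theorem mem_I1 {K : ℕ} {q : Fin K × Fin 9} : q ∈ I1 K ↔ q.2 ≠ 0 := by
  simp [I1]

theorem sg_inj (K : ℕ) : Set.InjOn (sg : Fin K × Fin 9 → Fin K → Fin 9) (I1 K) := by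
  intro q hq r hr h
  have hq2 := mem_I1.1 hq
  have hr2 := mem_I1.1 hr
  have h1 : q.1 = r.1 := by
    by_contra hne
    have := congrFun h q.1
    rw [sg_self, sg_ne r hne] at this
    exact hq2 this
  have h2 : q.2 = r.2 := by
    have := congrFun h q.1
    rw [sg_self, h1, sg_self] at this
    exact this
  exact Prod.ext h1 h2

theorem sg_ne_zero {K : ℕ} {q : Fin K × Fin 9} (hq : q ∈ I1 K) : sg q ≠ 0 := by
  intro h
  have := congrFun h q.1
  rw [sg_self] at this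
  exact mem_I1.1 hq this

theorem disj1 (K : ℕ) : Disjoint ({0} : Finset (Fin K → Fin 9)) ((I1 K).image sg) := by
  rw [Finset.disjoint_singleton_left, Finset.mem_image]
  rintro ⟨q, hq, h⟩
  exact sg_ne_zero hq h

theorem prod_split {K : ℕ} (F : (Fin K → Fin 9) → ℝ) :
    ∏ b, F b = F 0 * (∏ q ∈ I1 K, F (sg q)) * ∏ b ∈ S2 K, F b := by
  have h := Finset.prod_sdiff (Finset.subset_univ ({0} ∪ (I1 K).image sg)) (f := F)
  rw [← h, Finset.prod_union (disj1 K), Finset.prod_singleton,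
    Finset.prod_image (sg_inj K), mul_comm]
  rfl

theorem sum_split {K : ℕ} (F : (Fin K → Fin 9) → ℝ) :
    ∑ b, F b = F 0 + (∑ q ∈ I1 K, F (sg q)) + ∑ b ∈ S2 K, F b := by
  have h := Finset.sum_sdiff (Finset.subset_univ ({0} ∪ (I1 K).image sg)) (f := F)
  rw [← h, Finset.sum_union (disj1 K), Finset.sum_singleton,
    Finset.sum_image (sg_inj K), add_comm]
  rfl

theorem mu_zero : mu 0 = 1 := by simp [mu]

theorem mprod_zero (K : ℕ) : ∏ p, mu ((0 : Fin K → Fin 9) p) = 1 := by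
  simp [mu_zero]

theorem mprod_sg {K : ℕ} (q : Fin K × Fin 9) : ∏ p, mu (sg q p) = mu q.2 := by
  rw [Finset.prod_eq_single q.1 (fun p _ hp => by rw [sg_ne q hp, mu_zero])
    (fun h => absurd (Finset.mem_univ _) h), sg_self]

theorem mem_S2 {K : ℕ} {b : Fin K → Fin 9} (hb : b ∈ S2 K) :
    ∃ p p' : Fin K, p ≠ p' ∧ b p ≠ 0 ∧ b p' ≠ 0 := by
  rw [S2, Finset.mem_sdiff, Finset.mem_union, Finset.mem_singleton, Finset.mem_image] at hb
  have h1 : b ≠ 0 := fun h => hb.2 (Or.inl h)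
  obtain ⟨p, hp⟩ := Function.ne_iff.1 h1
  by_contra hno
  push Not at hno
  apply hb.2
  right
  refine ⟨(p, b p), mem_I1.2 hp, ?_⟩
  funext p'
  by_cases h : p' = p
  · subst h
    exact sg_self (p', b p')
  · rw [sg_ne (p, b p) h]
    exact (hno p p' (fun h' => h h'.symm) hp).symm

theorem mu_le_one (c : Fin 9) : |mu c| ≤ 1 := by
  unfold mu
  split_ifs <;> norm_num [abs_of_pos, abs_of_neg]

theorem mu_le_half {c : Fin 9} (hc : c ≠ 0) : |mu c| ≤ 1 / 2 := by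
  unfold mu
  rw [if_neg hc]
  split_ifs <;> norm_num [abs_of_pos, abs_of_neg]

theorem mprod_S2 {K : ℕ} {b : Fin K → Fin 9} (hb : b ∈ S2 K) :
    |∏ p, mu (b p)| ≤ 1 / 4 := by
  obtain ⟨p, p', hne, hp, hp'⟩ := mem_S2 hb
  rw [Finset.abs_prod, ← Finset.prod_sdiff (Finset.subset_univ {p, p'}),
    Finset.prod_pair hne]
  have h1 : ∏ i ∈ univ \ {p, p'}, |mu (b i)| ≤ 1 :=
    Finset.prod_le_one (fun i _ => abs_nonneg _) (fun i _ => mu_le_one _)
  have h0 : 0 ≤ ∏ i ∈ univ \ {p, p'}, |mu (b i)| :=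
    Finset.prod_nonneg (fun i _ => abs_nonneg _)
  have h2 := mu_le_half hp
  have h3 := mu_le_half hp'
  have h4 : |mu (b p)| * |mu (b p')| ≤ 1 / 2 * (1 / 2) :=
    mul_le_mul h2 h3 (abs_nonneg _) (by norm_num)
  calc _ ≤ 1 * (1 / 2 * (1 / 2)) := mul_le_mul h1 h4 (by positivity) (by norm_num)
    _ = 1 / 4 := by norm_num

theorem zero_notMem_Tan (K : ℕ) : (0 : Fin K → Fin 9) ∉ Tan K := by
  classical
  simp [Tan]

theorem sg_mem_Tan {K : ℕ} {q : Fin K × Fin 9} (hq : q ∈ I1 K) :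
    sg q ∈ Tan K ↔ (q.2 = 1 ∨ q.2 = 2 ∨ q.2 = 3) := by
  classical
  rw [Tan, Finset.mem_filter]
  constructor
  · rintro ⟨-, p, h1, h2⟩
    have hp : p = q.1 := by
      by_contra hne
      have := h2 q.1 (fun h => hne h.symm)
      rw [sg_self] at this
      exact mem_I1.1 hq this
    subst hp
    rwa [sg_self] at h1
  · intro h
    refine ⟨Finset.mem_univ _, q.1, ?_, fun p' hp' => sg_ne q hp'⟩
    rwa [sg_self]

theorem S2_notMem_Tan {K : ℕ} {b : Fin K → Fin 9} (hb : b ∈ S2 K) : b ∉ Tan K := by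
  classical
  rw [Tan, Finset.mem_filter]
  rintro ⟨-, r, h1, h2⟩
  obtain ⟨p, p', hne, hp, hp'⟩ := mem_S2 hb
  by_cases h : p = r
  · exact hp' (h2 p' (fun h' => hne (h.trans h'.symm)))
  · exact hp (h2 p h)

theorem S2_ne_zero {K : ℕ} {b : Fin K → Fin 9} (hb : b ∈ S2 K) : b ≠ 0 := by
  obtain ⟨p, p', hne, hp, hp'⟩ := mem_S2 hb
  intro h
  exact hp (by rw [h]; rfl)

/-- The logarithmic series. -/
theorem hasSum_log {m : ℝ} (hm : |m| ≤ 1 / 4) :
    HasSum (fun k : ℕ => lam k * m ^ (k + 1)) (-(Real.log (1 - 2 * m)) / 2) := by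
  have h1 : |2 * m| < 1 := by
    rw [abs_mul, abs_two]
    linarith
  have h := (Real.hasSum_pow_div_log_of_abs_lt_one h1).div_const 2
  refine h.congr_fun ?_
  intro k
  rw [lam, mul_pow]
  have hk : ((k : ℝ) + 1) ≠ 0 := by positivity
  field_simp

/-- The product over one factor. -/
theorem exp_half_log {m : ℝ} (hm : |m| ≤ 1 / 4) :
    Real.sqrt 3 * (Real.sqrt (3 * (1 - 2 * m)))⁻¹ = Real.exp (-(Real.log (1 - 2 * m)) / 2) := by
  have h1 : 0 < 1 - 2 * m := by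
    have := (abs_le.1 hm).2
    linarith
  have h3 : (0 : ℝ) < Real.sqrt 3 := Real.sqrt_pos.2 (by norm_num)
  have h4 : 0 < Real.sqrt (1 - 2 * m) := Real.sqrt_pos.2 h1
  rw [Real.sqrt_mul (by norm_num : (0 : ℝ) ≤ 3), mul_inv, ← mul_assoc, mul_inv_cancel₀ h3.ne',
    one_mul, neg_div, Real.exp_neg, Real.sqrt_eq_rpow, Real.rpow_def_of_pos h1]
  congr 2
  ring

theorem sum_mu_pow (k : ℕ) : ∑ c : Fin 9, mu c ^ (k + 1) = tau5 k := by
  simp only [Fin.sum_univ_succ, mu, tau5]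
  simp
  ring_nf

theorem sum_S2 (K k : ℕ) :
    ∑ b ∈ S2 K, (∏ p, mu (b p)) ^ (k + 1) = tau5 k ^ K - 1 - K * (tau5 k - 1) := by
  have h := sum_split (K := K) (fun b => (∏ p, mu (b p)) ^ (k + 1))
  have h1 : ∑ b : Fin K → Fin 9, (∏ p, mu (b p)) ^ (k + 1) = tau5 k ^ K := by
    have h2 := Finset.prod_univ_sum (fun _ : Fin K => (univ : Finset (Fin 9)))
      (fun _ c => mu c ^ (k + 1))
    rw [Fintype.piFinset_univ] at h2
    simp only [Finset.prod_pow] at h2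
    rw [← h2]
    simp [sum_mu_pow]
  have h3 : ∑ q ∈ I1 K, (∏ p, mu (sg q p)) ^ (k + 1) = K * (tau5 k - 1) := by
    simp only [mprod_sg]
    rw [I1, Finset.sum_product]
    have h4 : ∑ c ∈ (univ : Finset (Fin 9)).erase 0, mu c ^ (k + 1) = tau5 k - 1 := by
      rw [← sum_mu_pow, ← Finset.sum_erase_add _ _ (Finset.mem_univ (0 : Fin 9)), mu_zero]
      ring
    simp only [h4]
    simp
    ring
  rw [h1, h3, mprod_zero] at h
  rw [h]
  ring

/-- The factor at the index `b`. -/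
noncomputable def ww {K : ℕ} (b : Fin K → Fin 9) : ℝ :=
  Real.sqrt 3 * (Real.sqrt (ev5 b + (open Classical in if b ∈ Tan K then 1 else 0)))⁻¹

theorem ww_zero (K : ℕ) : ww (0 : Fin K → Fin 9) = (Real.sqrt 2)⁻¹ := by
  have h : ev5 (0 : Fin K → Fin 9) = 3 * 2 := by
    rw [ev5, mprod_zero, if_pos rfl]
    norm_num
  have h3 : (0 : ℝ) < Real.sqrt 3 := Real.sqrt_pos.2 (by norm_num)
  rw [ww, if_neg (zero_notMem_Tan K), h, add_zero, Real.sqrt_mul (by norm_num : (0 : ℝ) ≤ 3),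
    mul_inv, ← mul_assoc, mul_inv_cancel₀ h3.ne', one_mul]

/-- The factor of one nontrivial matrix. -/
noncomputable def w1 (c : Fin 9) : ℝ :=
  if c = 1 ∨ c = 2 ∨ c = 3 then Real.sqrt 3 else (Real.sqrt 2)⁻¹

theorem ww_sg {K : ℕ} {q : Fin K × Fin 9} (hq : q ∈ I1 K) : ww (sg q) = w1 q.2 := by
  have h3 : (0 : ℝ) < Real.sqrt 3 := Real.sqrt_pos.2 (by norm_num)
  rw [ww, ev5, if_neg (sg_ne_zero hq), mprod_sg, w1, mu, if_neg (mem_I1.1 hq)]
  by_cases h : q.2 = 1 ∨ q.2 = 2 ∨ q.2 = 3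
  · rw [if_pos h, if_pos h, if_pos ((sg_mem_Tan hq).2 h)]
    norm_num
  · rw [if_neg h, if_neg h, if_neg (fun h' => h ((sg_mem_Tan hq).1 h'))]
    have h6 : (3 : ℝ) * (1 - 2 * -(1 / 2)) + 0 + 0 = 3 * 2 := by norm_num
    rw [h6, Real.sqrt_mul (by norm_num : (0 : ℝ) ≤ 3),
      mul_inv, ← mul_assoc, mul_inv_cancel₀ h3.ne', one_mul]

theorem ww_S2 {K : ℕ} {b : Fin K → Fin 9} (hb : b ∈ S2 K) :
    ww b = Real.exp (-(Real.log (1 - 2 * ∏ p, mu (b p))) / 2) := by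
  rw [ww, ev5, if_neg (S2_ne_zero hb), if_neg (S2_notMem_Tan hb), add_zero, add_zero,
    exp_half_log (mprod_S2 hb)]

theorem prod_w1 : ∏ c ∈ (univ : Finset (Fin 9)).erase 0, w1 c =
    Real.sqrt 3 ^ 3 * ((Real.sqrt 2)⁻¹) ^ 5 := by
  have h : (univ : Finset (Fin 9)).erase 0 = {1, 2, 3, 4, 5, 6, 7, 8} := by decide
  rw [h]
  simp [w1]
  ring

theorem prod_I1 (K : ℕ) : ∏ q ∈ I1 K, ww (sg q) =
    (3 : ℝ) ^ (3 * (K : ℝ) / 2) * (2 : ℝ) ^ (-(5 * (K : ℝ) / 2)) := by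
  rw [Finset.prod_congr rfl (fun q hq => ww_sg hq), I1, Finset.prod_product]
  simp only [prod_w1, Finset.prod_const, Finset.card_univ, Fintype.card_fin]
  rw [mul_pow, ← pow_mul, ← pow_mul, Real.sqrt_eq_rpow, Real.sqrt_eq_rpow,
    ← Real.rpow_neg (by norm_num : (0 : ℝ) ≤ 2), ← Real.rpow_natCast, ← Real.rpow_natCast,
    ← Real.rpow_mul (by norm_num), ← Real.rpow_mul (by norm_num)]
  congr 2 <;> push_cast <;> ring

theorem st_PRD : ST_PRD := by
  intro K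
  have hall : (3 : ℝ) ^ ((9 : ℝ) ^ K / 2) *
    ∏ b : Fin K → Fin 9,
      (Real.sqrt (ev5 b + (open Classical in if b ∈ Tan K then 1 else 0)))⁻¹ =
      ∏ b : Fin K → Fin 9, ww b := by
    have h : ∏ b : Fin K → Fin 9, ww b = (∏ _b : Fin K → Fin 9, Real.sqrt 3) *
      ∏ b : Fin K → Fin 9,
      (Real.sqrt (ev5 b + (open Classical in if b ∈ Tan K then 1 else 0)))⁻¹ :=
      Finset.prod_mul_distrib
    rw [h]
    congr 1
    rw [Finset.prod_const, Finset.card_univ, Fintype.card_fun, Fintype.card_fin, Fintype.card_fin,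
      Real.sqrt_eq_rpow, ← Real.rpow_natCast ((3 : ℝ) ^ (1 / 2 : ℝ)) (9 ^ K),
      ← Real.rpow_mul (by norm_num)]
    congr 1
    push_cast
    ring
  rw [hall, prod_split, ww_zero, prod_I1, Finset.prod_congr rfl (fun b hb => ww_S2 hb),
    ← Real.exp_sum]
  have hs : HasSum (fun k : ℕ => ∑ b ∈ S2 K, lam k * (∏ p, mu (b p)) ^ (k + 1))
      (∑ b ∈ S2 K, -(Real.log (1 - 2 * ∏ p, mu (b p))) / 2) :=
    hasSum_sum (fun b hb => hasSum_log (mprod_S2 hb))
  have hs' : (fun k : ℕ => ∑ b ∈ S2 K, lam k * (∏ p, mu (b p)) ^ (k + 1)) =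
      fun k : ℕ => lam k * (tau5 k ^ K - 1 - K * (tau5 k - 1)) := by
    funext k
    rw [← Finset.mul_sum, sum_S2]
  rw [hs'] at hs
  rw [hs.tsum_eq]
  ring

end Pool.Agent.Helper49.T5
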